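import Mathlib
import Pool.Agent.Lib.MP_db697d_lc.BSGroup

/-!
The Diophantine problem is undecidable in the solvable Baumslag-Solitar groups `BS(1,n)`,
`2 ≤ |n|`.
-/

namespace Pool.Agent.Results.MP_db697d_lc.BaumslagSolitar

open Pool.Agent.Lib.MP_db697d_lc

/-- For `2 ≤ |n|` the Diophantine problem of `BS(1,n) = ⟨a, t ∣ t a t⁻¹ = a ^ n⟩` is undecidable
(`a` is the generator `0`, `t` is the generator `1`). -/
theorem result : ∀ (n : ℤ), 2 ≤ |n| → ∀ (k : ℕ) (π : FreeGroup (Fin k) →*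
      PresentedGroup ({FreeGroup.of 1 * FreeGroup.of 0 * (FreeGroup.of 1)⁻¹ *
        (FreeGroup.of 0 ^ n)⁻¹} : Set (FreeGroup (Fin 2)))),
    Function.Surjective π →
      ¬ ComputablePred
        (fun S : List (List ((Fin k ⊕ ℕ) × Bool)) =>
          ∃ s : ℕ → PresentedGroup ({FreeGroup.of 1 * FreeGroup.of 0 * (FreeGroup.of 1)⁻¹ *
              (FreeGroup.of 0 ^ n)⁻¹} : Set (FreeGroup (Fin 2))), ∀ w ∈ S,
            FreeGroup.lift (Sum.elim (fun i => π (FreeGroup.of i)) s)
              (FreeGroup.mk w) = 1) := by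
  intro n hn k π hπ
  have h0 : (n : ℚ) ≠ 0 := by
    rintro h
    rw [Int.cast_eq_zero.1 h] at hn
    simp at hn
  refine undecidable_bs (PresentedGroup.of 0) (PresentedGroup.of 1) n hn ?_ ?_ ?_ hπ
  · rw [← PresentedGroup.closure_range_of]
    congr 1
    ext g
    simp [Fin.exists_fin_two, eq_comm]
  · rw [← mul_inv_eq_one]
    exact PresentedGroup.one_of_mem (Set.mem_singleton _)
  · intro h
    have h1 := (PresentedGroup.toGroup (f := ![Equiv.addRight (1 : ℚ), Equiv.mulLeft₀ (n : ℚ) h0])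
      (by
        rintro _ rfl
        ext x
        simp [mul_add, h0])).isOfFinOrder h
    obtain ⟨m, hm, h2⟩ := isOfFinOrder_iff_pow_eq_one.1 h1
    have h3 := congrArg (fun f : Equiv.Perm ℚ => f 0) h2
    simp [hm.ne'] at h3

end Pool.Agent.Results.MP_db697d_lc.BaumslagSolitar
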