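import Mathlib
import Pool.Agent.Lib.MP_db697d_lc.Group
import Pool.Agent.Lib.MP_db697d_lc.Alg

/-!
The Diophantine problem is undecidable in a polycyclic group acting virtually cyclically and
non-semisimply on an abelian subgroup.
-/

namespace Pool.Agent.Results.MP_db697d_lc.Jordan

open Pool.Agent.Lib.MP_db697d_lc Polynomial
open scoped IsMulCommutative

/-- Let all subgroups of `G` be finitely generated, let `M` be an abelian subgroup normalised by
`t`, and let `K` be a subgroup centralised by `t` such that `⟨t⟩ C_G(M)` meets `C_G(K)` in a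
subgroup of finite index in `C_G(K)` (for trivial `K`: `⟨t⟩ C_G(M)` has finite index in `G`).
If conjugation by `t` is not semisimple on `ℚ ⊗ M`, then the Diophantine problem of `G` is
undecidable. -/
theorem result : ∀ (G : Type) [Group G], (∀ H : Subgroup G, H.FG) →
    ∀ (K M : Subgroup G) [IsMulCommutative M] (t : Subgroup.normalizer (M : Set G)),
      (t : G) ∈ Subgroup.centralizer (K : Set G) →
      (Subgroup.zpowers (t : G) ⊔ Subgroup.centralizer (M : Set G)).relIndex
        (Subgroup.centralizer (K : Set G)) ≠ 0 →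
      ¬ Module.End.IsSemisimple (LinearMap.baseChange ℚ
        (MulEquiv.toAdditive (M.normalizerMonoidHom t)).toIntLinearEquiv.toLinearMap) →
      ∀ (n : ℕ) (π : FreeGroup (Fin n) →* G), Function.Surjective π →
        ¬ ComputablePred
          (fun S : List (List ((Fin n ⊕ ℕ) × Bool)) =>
            ∃ s : ℕ → G, ∀ w ∈ S,
              FreeGroup.lift (Sum.elim (fun i => π (FreeGroup.of i)) s)
                (FreeGroup.mk w) = 1) := by
  intro G _ hG K M _ t htK ht hs n π hπ hD
  obtain ⟨A, _, _, T, ι, h1, h2, h3, h4, h5⟩ := group_side hG K M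
    (fun a ha b hb => congrArg Subtype.val (mul_comm (⟨a, ha⟩ : M) ⟨b, hb⟩)) t t.2 htK ht hπ
  suffices h : MulDef T by
    obtain ⟨P, h6, h7⟩ := h.undecidable
    exact h7 (h5 P h6 hD)
  refine mulDef_of_not_squarefree T fun p _ hp hp' => hs ?_
  set c : Module.End ℤ (Additive M) :=
    (MulEquiv.toAdditive (M.normalizerMonoidHom t)).toIntLinearEquiv.toLinearMap with hc
  choose j hj using fun m : Additive M => h3 _ m.toMul.2
  let J : Additive M →ₗ[ℤ] A := (AddMonoidHom.mk' j fun a b => h1 (by
    rw [h2, hj, hj, hj]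
    rfl)).toIntLinearMap
  have h6 : Function.Injective J := fun a b h =>
    Additive.toMul.injective (Subtype.ext ((hj a).symm.trans ((congrArg ι h).trans (hj b))))
  have h7 : ∀ m, J (c m) = T.1 (J m) := fun m => h1 (by
    rw [h4]
    exact (hj _).trans (congrArg (fun x => (t : G) * x * (t : G)⁻¹) (hj m).symm))
  have h8 : ∀ (q : ℤ[X]) m, J (aeval c q m) = aeval T.1 q (J m) := fun q m => by
    induction q using Polynomial.induction_on with
    | C a => simp
    | add p q hp hq => simp [hp, hq]
    | monomial k a h =>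
      rw [pow_succ', mul_left_comm, map_mul, map_mul _ X, aeval_X, aeval_X, Module.End.mul_apply,
        Module.End.mul_apply, h7, h]
  refine Module.End.isSemisimple_of_squarefree_aeval_eq_zero hp' ?_
  rw [aeval_map_algebraMap]
  refine (aeval_algHom_apply (Module.End.baseChangeHom ℤ ℚ (Additive M)) c p).trans ?_
  ext m
  obtain ⟨⟨a, ha⟩, h9⟩ := hp (J m)
  have h10 : a • aeval c p m = 0 := h6 (by rw [map_smul, h8, map_zero]; exact h9)
  have h11 : (a : ℚ) ≠ 0 := Int.cast_ne_zero.2 (nonZeroDivisors.ne_zero ha)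
  change (1 : ℚ) ⊗ₜ[ℤ] aeval c p m = 0
  rw [← mul_inv_cancel₀ h11, ← zsmul_eq_mul, TensorProduct.smul_tmul, h10, TensorProduct.tmul_zero]

end Pool.Agent.Results.MP_db697d_lc.Jordan
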