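import Mathlib
import Pool.Agent.Lib.MP_db697d_lc.Exp.Grp

/-!
Systems of equations whose unknowns are non-negative powers of fixed elements are undecidable in
every polycyclic group that is not virtually abelian.
-/

namespace Pool.Agent.Results.MP_db697d_lc.PowerConstraints

/-- Let `G` be polycyclic and not virtually abelian.  There are elements `g 0, ..., g (k - 1)`
such that it is undecidable whether a finite system of equations with constants has a solution
in which the unknown `j` is a non-negative power of `g j`. -/
theorem result : ∀ (G : Type) [Group G], Group.IsSolvable G → (∀ H : Subgroup G, H.FG) →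
    (¬ ∃ A : Subgroup G, A.index ≠ 0 ∧ ∀ a ∈ A, ∀ b ∈ A, a * b = b * a) →
    ∀ (n : ℕ) (π : FreeGroup (Fin n) →* G), Function.Surjective π →
      ∃ (k : ℕ) (g : Fin k → G), ¬ ComputablePred
        (fun S : List (List ((Fin n ⊕ Fin k) × Bool)) =>
          ∃ x : Fin k → ℕ, ∀ w ∈ S,
            FreeGroup.lift (Sum.elim (fun i => π (FreeGroup.of i)) fun j => g j ^ x j)
              (FreeGroup.mk w) = 1) :=
  fun _ _ hs hG h _ _ hπ => Lib.MP_db697d_lc.Exp.undecidable hs hG h hπ

end Pool.Agent.Results.MP_db697d_lc.PowerConstraints
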